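import Mathlib

set_option autoImplicit false

namespace Pool.Agent.H772Z.RatDiff

open Filter

/-- Lyapunov function. -/
def V (a b c : ℝ) : ℝ := 38 * a ^ 2 + 23 * b ^ 2 + 16 * c ^ 2 - 4 * a * b - 26 * a * c - 22 * b * c

theorem V_ge (a b c : ℝ) : a ^ 2 + b ^ 2 + c ^ 2 ≤ V a b c := by
  unfold V
  nlinarith [sq_nonneg (a - 2 / 37 * b - 13 / 37 * c), sq_nonneg (b - 433 / 810 * c), sq_nonneg c]

theorem V_le (a b c d : ℝ) (ha : |a| ≤ d) (hb : |b| ≤ d) (hc : |c| ≤ d) : V a b c ≤ 129 * d ^ 2 := by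
  unfold V
  have h1 : a ^ 2 ≤ d ^ 2 := by rw [← sq_abs a]; exact pow_le_pow_left₀ (abs_nonneg _) ha 2
  have h2 : b ^ 2 ≤ d ^ 2 := by rw [← sq_abs b]; exact pow_le_pow_left₀ (abs_nonneg _) hb 2
  have h3 : c ^ 2 ≤ d ^ 2 := by rw [← sq_abs c]; exact pow_le_pow_left₀ (abs_nonneg _) hc 2
  nlinarith [sq_nonneg (a + b), sq_nonneg (a + c), sq_nonneg (b + c)]

theorem step0 (a b c : ℝ) :
    V (49 / 50 * ((-13 * a - 3 * b + 16 * c) / 27)) a b ≤ 49 / 50 * V a b c := by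
  unfold V
  nlinarith [sq_nonneg (a + 670434 / 3546689 * b - 1062173 / 3546689 * c),
    sq_nonneg (b - 107651873 / 553151390 * c), sq_nonneg c]

theorem step1 (a b c : ℝ) :
    V (51 / 50 * ((-13 * a - 3 * b + 16 * c) / 27)) a b ≤ 49 / 50 * V a b c := by
  unfold V
  nlinarith [sq_nonneg (a + 31776 / 314921 * b - 25397 / 314921 * c),
    sq_nonneg (b - 4625747 / 48396710 * c), sq_nonneg c]

theorem stepθ (a b c t : ℝ) (h0 : 49 / 50 ≤ t) (h1 : t ≤ 51 / 50) :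
    V (t * ((-13 * a - 3 * b + 16 * c) / 27)) a b ≤ 49 / 50 * V a b c := by
  have e0 := step0 a b c
  have e1 := step1 a b c
  set l := (-13 * a - 3 * b + 16 * c) / 27 with hl
  set W := 49 / 50 * V a b c with hW
  have key : V (t * l) a b = 25 * (51 / 50 - t) * V (49 / 50 * l) a b
      + 25 * (t - 49 / 50) * V (51 / 50 * l) a b - 38 * l ^ 2 * ((t - 49 / 50) * (51 / 50 - t)) := by
    unfold V; ring
  have p1 : 0 ≤ 51 / 50 - t := by linarith
  have p0 : 0 ≤ t - 49 / 50 := by linarith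
  have q0 := mul_le_mul_of_nonneg_left e0 p1
  have q1 := mul_le_mul_of_nonneg_left e1 p0
  have q2 : 0 ≤ l ^ 2 * ((t - 49 / 50) * (51 / 50 - t)) := mul_nonneg (sq_nonneg _) (mul_nonneg p0 p1)
  rw [key]
  nlinarith

theorem step (x y z : ℝ) (h : V (x - 1) (y - 1) (z - 1) ≤ 1 / 10000) :
    V ((10 * x + 17 * z) / (23 * x + 3 * y + z) - 1) (x - 1) (y - 1)
      ≤ 49 / 50 * V (x - 1) (y - 1) (z - 1) := by
  have hg := V_ge (x - 1) (y - 1) (z - 1)
  have hx : |x - 1| ≤ 1 / 100 := by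
    apply abs_le_of_sq_le_sq' _ (by norm_num) |> abs_le.2
    nlinarith [sq_nonneg (y - 1), sq_nonneg (z - 1)]
  have hy : |y - 1| ≤ 1 / 100 := by
    apply abs_le_of_sq_le_sq' _ (by norm_num) |> abs_le.2
    nlinarith [sq_nonneg (x - 1), sq_nonneg (z - 1)]
  have hz : |z - 1| ≤ 1 / 100 := by
    apply abs_le_of_sq_le_sq' _ (by norm_num) |> abs_le.2
    nlinarith [sq_nonneg (x - 1), sq_nonneg (y - 1)]
  rw [abs_le] at hx hy hz
  have hD : 0 < 23 * x + 3 * y + z := by linarith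
  have e : (10 * x + 17 * z) / (23 * x + 3 * y + z) - 1
      = 27 / (23 * x + 3 * y + z) * ((-13 * (x - 1) - 3 * (y - 1) + 16 * (z - 1)) / 27) := by
    rw [div_sub_one hD.ne', div_mul_div_comm, div_eq_div_iff hD.ne' (by positivity)]; ring
  rw [e]
  apply stepθ
  · rw [le_div_iff₀ hD]; linarith
  · rw [div_le_iff₀ hD]; linarith

/-- decay of the Lyapunov function along a solution. -/
theorem decay (x : ℕ → ℝ)
    (hx : ∀ n, x (n + 3) = (10 * x (n + 2) + 17 * x n) / (23 * x (n + 2) + 3 * x (n + 1) + x n))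
    (h0 : V (x 2 - 1) (x 1 - 1) (x 0 - 1) ≤ 1 / 10000) (n : ℕ) :
    V (x (n + 2) - 1) (x (n + 1) - 1) (x n - 1) ≤ (49 / 50) ^ n * V (x 2 - 1) (x 1 - 1) (x 0 - 1) := by
  have hV0 : 0 ≤ V (x 2 - 1) (x 1 - 1) (x 0 - 1) :=
    le_trans (by positivity) (V_ge _ _ _)
  induction n with
  | zero => simp
  | succ n ih =>
    have hp : (49 / 50 : ℝ) ^ n ≤ 1 := pow_le_one₀ (by norm_num) (by norm_num)
    have h1 : V (x (n + 2) - 1) (x (n + 1) - 1) (x n - 1) ≤ 1 / 10000 := by nlinarith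
    have h2 := step _ _ _ h1
    rw [← hx n] at h2
    calc V (x (n + 1 + 2) - 1) (x (n + 1 + 1) - 1) (x (n + 1) - 1)
        ≤ 49 / 50 * V (x (n + 2) - 1) (x (n + 1) - 1) (x n - 1) := h2
      _ ≤ 49 / 50 * ((49 / 50) ^ n * V (x 2 - 1) (x 1 - 1) (x 0 - 1)) := by linarith
      _ = (49 / 50) ^ (n + 1) * V (x 2 - 1) (x 1 - 1) (x 0 - 1) := by ring

theorem sq_bound (x : ℕ → ℝ)
    (hx : ∀ n, x (n + 3) = (10 * x (n + 2) + 17 * x n) / (23 * x (n + 2) + 3 * x (n + 1) + x n))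
    (d : ℝ) (hd : d ≤ 1 / 2000) (h : ∀ i, i < 3 → |x i - 1| < d) (n : ℕ) :
    (x n - 1) ^ 2 ≤ (49 / 50) ^ n * (129 * d ^ 2) := by
  have h0 := h 0 (by norm_num)
  have hd0 : 0 ≤ d := le_trans (abs_nonneg _) h0.le
  have hV := V_le _ _ _ d (h 2 (by norm_num)).le (h 1 (by norm_num)).le h0.le
  have hdd : d ^ 2 ≤ (1 / 2000) ^ 2 := pow_le_pow_left₀ hd0 hd 2
  have h1 := decay x hx (by nlinarith) n
  have h2 := V_ge (x (n + 2) - 1) (x (n + 1) - 1) (x n - 1)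
  have hp : (0 : ℝ) ≤ (49 / 50) ^ n := by positivity
  have h3 := mul_le_mul_of_nonneg_left hV hp
  nlinarith [sq_nonneg (x (n + 2) - 1), sq_nonneg (x (n + 1) - 1)]

theorem stable (ε : ℝ) (hε : 0 < ε) : ∃ δ : ℝ, 0 < δ ∧ ∀ x : ℕ → ℝ,
    (∀ n, x (n + 3) = (10 * x (n + 2) + 17 * x n) / (23 * x (n + 2) + 3 * x (n + 1) + x n)) →
    (∀ i, i < 3 → |x i - 1| < δ) → ∀ n, |x n - 1| < ε := by
  refine ⟨min (1 / 2000) (ε / 12), by positivity, fun x hx h n => ?_⟩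
  have h1 := sq_bound x hx _ (min_le_left _ _) h n
  have hp : (49 / 50 : ℝ) ^ n ≤ 1 := pow_le_one₀ (by norm_num) (by norm_num)
  have hm0 : 0 ≤ min (1 / 2000) (ε / 12) := by positivity
  have hm : (min (1 / 2000) (ε / 12)) ^ 2 ≤ (ε / 12) ^ 2 := pow_le_pow_left₀ hm0 (min_le_right _ _) 2
  have h2 : (x n - 1) ^ 2 < ε ^ 2 := by
    have : (49 / 50 : ℝ) ^ n * (129 * (min (1 / 2000) (ε / 12)) ^ 2) ≤ 129 * (min (1 / 2000) (ε / 12)) ^ 2 :=
      mul_le_of_le_one_left (by positivity) hp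
    nlinarith [sq_pos_of_pos hε]
  exact abs_lt_of_sq_lt_sq h2 hε.le

theorem attract (x : ℕ → ℝ)
    (hx : ∀ n, x (n + 3) = (10 * x (n + 2) + 17 * x n) / (23 * x (n + 2) + 3 * x (n + 1) + x n))
    (h : ∀ i, i < 3 → |x i - 1| < 1 / 2000) : Tendsto x atTop (nhds 1) := by
  have h1 := sq_bound x hx _ le_rfl h
  have h2 : Tendsto (fun n : ℕ => (49 / 50 : ℝ) ^ n * (129 * (1 / 2000) ^ 2)) atTop (nhds 0) := by
    have := (tendsto_pow_atTop_nhds_zero_of_lt_one (r := (49 / 50 : ℝ)) (by norm_num)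
      (by norm_num)).mul_const (129 * (1 / 2000) ^ 2)
    simpa using this
  have h3 : Tendsto (fun n : ℕ => (x n - 1) ^ 2) atTop (nhds 0) :=
    squeeze_zero (fun n => sq_nonneg _) h1 h2
  have h4 : Tendsto (fun n : ℕ => |x n - 1|) atTop (nhds 0) := by
    have := (Real.continuous_sqrt.tendsto 0).comp h3
    simpa [Function.comp_def, Real.sqrt_sq_eq_abs] using this
  rw [tendsto_iff_dist_tendsto_zero]
  simpa [Real.dist_eq] using h4

/-- the solution with given initial values -/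
noncomputable def sol (y : ℕ → ℝ) : ℕ → ℝ
  | 0 => y 0
  | 1 => y 1
  | 2 => y 2
  | n + 3 => (10 * sol y (n + 2) + 17 * sol y n) / (23 * sol y (n + 2) + 3 * sol y (n + 1) + sol y n)

theorem sol_pos (y : ℕ → ℝ) (hy : ∀ i, i < 3 → 0 < y i) (n : ℕ) :
    0 < sol y n ∧ 0 < sol y (n + 1) ∧ 0 < sol y (n + 2) := by
  induction n with
  | zero => exact ⟨hy 0 (by norm_num), hy 1 (by norm_num), hy 2 (by norm_num)⟩
  | succ n ih =>
    obtain ⟨h0, h1, h2⟩ := ih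
    refine ⟨h1, h2, ?_⟩
    show 0 < sol y (n + 3)
    rw [sol]
    positivity

/-- the solution of period three -/
noncomputable def per (n : ℕ) : ℝ := if n % 3 = 0 then 5 else 1 / 2

theorem per_rec (n : ℕ) :
    per (n + 3) = (10 * per (n + 2) + 17 * per n) / (23 * per (n + 2) + 3 * per (n + 1) + per n) := by
  have h : n % 3 = 0 ∨ n % 3 = 1 ∨ n % 3 = 2 := by omega
  rcases h with h | h | h
  · have h1 : (n + 1) % 3 ≠ 0 := by omega
    have h2 : (n + 2) % 3 ≠ 0 := by omega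
    have h3 : (n + 3) % 3 = 0 := by omega
    simp only [per, h, h1, h2, h3, if_true, if_false]; norm_num
  · have h0 : n % 3 ≠ 0 := by omega
    have h1 : (n + 1) % 3 ≠ 0 := by omega
    have h2 : (n + 2) % 3 = 0 := by omega
    have h3 : (n + 3) % 3 ≠ 0 := by omega
    simp only [per, h0, h1, h2, h3, if_true, if_false]; norm_num
  · have h0 : n % 3 ≠ 0 := by omega
    have h1 : (n + 1) % 3 = 0 := by omega
    have h2 : (n + 2) % 3 ≠ 0 := by omega
    have h3 : (n + 3) % 3 ≠ 0 := by omega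
    simp only [per, h0, h1, h2, h3, if_true, if_false]; norm_num

theorem per_pos (n : ℕ) : 0 < per n := by
  unfold per; split_ifs <;> norm_num

theorem per_not : ¬ Tendsto per atTop (nhds 1) := by
  intro h
  have h1 := (Metric.tendsto_atTop.1 h) (1 / 4) (by norm_num)
  obtain ⟨N, hN⟩ := h1
  have h2 := hN N le_rfl
  rw [Real.dist_eq, abs_lt] at h2
  unfold per at h2
  split_ifs at h2 <;> norm_num at h2

end Pool.Agent.H772Z.RatDiff
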